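import Pool.Agent.H65.PK.Targets

/-! (GEM) a criterion of Gelfond with separate degree and height (MP_58ae59_nt). -/

set_option autoImplicit false

open Polynomial

namespace Pool.Agent.H14.PK

open Pool.Agent.H65.PK

theorem gem_assoc {P Q : ℤ[X]} (h : Associated P Q) (θ : ℂ) : ‖aeval θ P‖ = ‖aeval θ Q‖ := by
  obtain ⟨u, rfl⟩ := h
  obtain ⟨r, hr, hu⟩ := Polynomial.isUnit_iff.1 u.isUnit
  rw [map_mul, norm_mul, ← hu, aeval_C]
  rcases Int.isUnit_iff.1 hr with rfl | rfl <;> simp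

theorem gem_dl_pos {K : ℕ} {g : ℕ → ℕ} (hg : GF K g) (κ : ℕ) {h : ℕ} (hh : 1 ≤ h) :
    1 ≤ dl g κ h := by
  unfold dl
  have h1 := hg.one h
  have : 0 < h ^ 2 * g h ^ κ := Nat.mul_pos (pow_pos (by omega) _) (pow_pos (by omega) _)
  omega

theorem gem_dl_mono {K : ℕ} {g : ℕ → ℕ} (hg : GF K g) (κ h : ℕ) :
    dl g κ h ≤ dl g κ (h + 1) := by
  unfold dl
  exact Nat.mul_le_mul (Nat.pow_le_pow_left (by omega) _)
    (Nat.pow_le_pow_left (hg.mono (by omega)) _)

theorem gem_dl_succ {K : ℕ} {g : ℕ → ℕ} (hg : GF K g) (κ : ℕ) {h : ℕ} (hh : 1 ≤ h) :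
    dl g κ (h + 1) ≤ 2 ^ (κ + 2) * dl g κ h := by
  unfold dl
  calc (h + 1) ^ 2 * g (h + 1) ^ κ ≤ (2 * h) ^ 2 * (2 * g h) ^ κ :=
        Nat.mul_le_mul (Nat.pow_le_pow_left (by omega) _) (Nat.pow_le_pow_left (hg.slow h) _)
    _ = 2 ^ (κ + 2) * (h ^ 2 * g h ^ κ) := by
        rw [mul_pow, mul_pow, pow_add]
        ring

/-- one scale -/
theorem gem_one (hM : T_MZB) (hF : T_GFB) {θ : ℂ} {C δ L G : ℝ} (hC : 1 ≤ C) (hδ : 1 ≤ δ)
    (hL : 1 ≤ L) (hG : 0 < G) {R : ℤ[X]} (hR : aeval θ R ≠ 0) (hd : (R.natDegree : ℝ) ≤ C * δ)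
    (hc : ∀ i, |(R.coeff i : ℝ)| ≤ Real.exp (C * (δ * L)))
    (hs : ‖aeval θ R‖ ≤ Real.exp (-(G * δ ^ 2 * L / C))) :
    ∃ Q : ℤ[X], Irreducible Q ∧ 1 ≤ Q.natDegree ∧ (Q.natDegree : ℝ) ≤ C * δ ∧
      0 ≤ mz Q ∧ mz Q ≤ 3 * C * (δ * L) ∧ aeval θ Q ≠ 0 ∧
      ‖aeval θ Q‖ ≤ Real.exp (-(G / (4 * C ^ 2) * (δ * L * Q.natDegree + δ * mz Q))) := by
  have hR0 : R ≠ 0 := by
    rintro rfl
    exact hR (map_zero _)
  have hδL : 1 ≤ δ * L := one_le_mul_of_one_le_of_one_le hδ hL
  have hCδL : 1 ≤ C * (δ * L) := one_le_mul_of_one_le_of_one_le hC hδL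
  have hm : mz R ≤ 3 * C * (δ * L) := by
    have h1 := hM.2.2.2 R (C * (δ * L)) hR0 hc
    have h2 : C * δ ≤ C * (δ * L) := by
      refine mul_le_mul_of_nonneg_left ?_ (by linarith)
      nlinarith
    linarith
  obtain ⟨Q, hQ1, hQ2, hQ3, hQ4, hQ5, hQ6⟩ := hF θ R (G * δ ^ 2 * L / C) (4 * C * (δ ^ 2 * L))
    (δ * L) δ hR (by positivity) (by linarith) (by positivity) (by positivity) (by
      have h3 : δ * L * (R.natDegree : ℝ) ≤ δ * L * (C * δ) :=
        mul_le_mul_of_nonneg_left hd (by positivity)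
      have h4 : δ * mz R ≤ δ * (3 * C * (δ * L)) :=
        mul_le_mul_of_nonneg_left hm (by linarith)
      have h5 : δ * L * (C * δ) + δ * (3 * C * (δ * L)) = 4 * C * (δ ^ 2 * L) := by ring
      linarith) hs
  refine ⟨Q, hQ1, hQ3, le_trans (by exact_mod_cast hQ4) hd, hM.2.1 Q hQ1.ne_zero,
    hQ5.trans hm, ?_, ?_⟩
  · intro h0
    obtain ⟨S, rfl⟩ := hQ2
    rw [map_mul, h0, zero_mul] at hR
    exact hR rfl
  · refine hQ6.trans (le_of_eq ?_)
    congr 2
    have : G * δ ^ 2 * L / C / (4 * C * (δ ^ 2 * L)) = G / (4 * C ^ 2) := by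
      field_simp
    rw [this]

theorem pf_GEM : T_MZB → T_GFB → T_GRZ → T_GRO → T_GEM := by
  intro hM hF hZ _ K κ g hK hg θ C h0 hC hall
  obtain ⟨C1, hC1, hZ⟩ := hZ θ
  have hC0 : 0 < C := by linarith
  set M : ℝ := 8 * C * 2 ^ (κ + 2) with hMd
  have hM0 : 0 < M := by positivity
  obtain ⟨B0, hB0⟩ := exists_nat_gt (4 * C ^ 2 * (C1 * M))
  obtain ⟨h1, hh1⟩ := hg.large B0
  set H : ℕ := max (max h0 h1) 3 with hH
  have hHh0 : ∀ h, H ≤ h → h0 ≤ h := fun h hh => by omega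
  have hHh1 : ∀ h, H ≤ h → h1 ≤ h := fun h hh => by omega
  have hHh3 : ∀ h, H ≤ h → 3 ≤ h := fun h hh => by omega
  have hL1 : ∀ h : ℕ, 3 ≤ h → 1 ≤ Real.log h := by
    intro h hh
    rw [Real.le_log_iff_exp_le (by positivity)]
    have h3 : (3 : ℝ) ≤ h := by exact_mod_cast hh
    have := Real.exp_one_lt_d9
    linarith
  -- one polynomial for each scale
  have hex : ∀ h : ℕ, ∃ Q : ℤ[X], H ≤ h → Irreducible Q ∧ 1 ≤ Q.natDegree ∧
      (Q.natDegree : ℝ) ≤ C * dl g κ h ∧ 0 ≤ mz Q ∧ mz Q ≤ 3 * C * (dl g κ h * Real.log h) ∧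
      aeval θ Q ≠ 0 ∧ ‖aeval θ Q‖ ≤ Real.exp (-((g h : ℝ) / (4 * C ^ 2) *
        ((dl g κ h : ℝ) * Real.log h * Q.natDegree + dl g κ h * mz Q))) := by
    intro h
    by_cases hh : H ≤ h
    · obtain ⟨R, hR1, hR2, hR3, hR4⟩ := hall h (hHh0 h hh)
      have hδ : (1 : ℝ) ≤ dl g κ h := by
        exact_mod_cast gem_dl_pos hg κ (by have := hHh3 h hh; omega)
      have hG : (0 : ℝ) < g h := by
        have := hg.one h
        exact_mod_cast this
      obtain ⟨Q, hQ⟩ := gem_one hM hF hC hδ (hL1 h (hHh3 h hh)) hG hR1 hR2 hR3 hR4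
      exact ⟨Q, fun _ => hQ⟩
    · exact ⟨0, fun h2 => absurd h2 hh⟩
  choose Q hQ using hex
  -- consecutive polynomials are associated
  have hstep : ∀ h : ℕ, H ≤ h → Associated (Q h) (Q (h + 1)) := by
    intro h hh
    by_contra hna
    obtain ⟨a1, a2, a3, a4, a5, a6, a7⟩ := hQ h hh
    obtain ⟨b1, b2, b3, b4, b5, b6, b7⟩ := hQ (h + 1) (by omega)
    have hh3 := hHh3 h hh
    have hL := hL1 h hh3
    have hL' := hL1 (h + 1) (by omega)
    set L : ℝ := Real.log h with hLd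
    set L' : ℝ := Real.log ((h + 1 : ℕ) : ℝ) with hLd'
    have hLL : L ≤ L' := by
      refine Real.log_le_log (by positivity) ?_
      push_cast
      linarith
    have hLL2 : L' ≤ 2 * L := by
      have h3 : (3 : ℝ) ≤ h := by exact_mod_cast hh3
      rw [hLd', hLd, ← Real.log_rpow (by positivity)]
      refine Real.log_le_log (by positivity) ?_
      norm_num
      nlinarith
    have hδ : (1 : ℝ) ≤ dl g κ h := by exact_mod_cast gem_dl_pos hg κ (by omega)
    have hδm : (dl g κ h : ℝ) ≤ dl g κ (h + 1) := by exact_mod_cast gem_dl_mono hg κ h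
    have hδ2 : (dl g κ (h + 1) : ℝ) ≤ 2 ^ (κ + 2) * dl g κ h := by
      exact_mod_cast gem_dl_succ hg κ (by omega)
    set δ : ℝ := (dl g κ h : ℝ) with hδd
    set δ' : ℝ := (dl g κ (h + 1) : ℝ) with hδd'
    have hgB : (4 * C ^ 2 * (C1 * M) : ℝ) < g h := by
      have h2 := hh1 h (hHh1 h hh)
      have h3 : (B0 : ℝ) ≤ g h := by exact_mod_cast h2
      linarith
    have hgg : (g h : ℝ) ≤ g (h + 1) := by exact_mod_cast hg.mono (by omega)
    set p : ℝ := ((Q h).natDegree : ℝ) with hp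
    set q : ℝ := ((Q (h + 1)).natDegree : ℝ) with hq
    have hp1 : (1 : ℝ) ≤ p := by rw [hp]; exact_mod_cast a2
    have hq1 : (1 : ℝ) ≤ q := by rw [hq]; exact_mod_cast b2
    have hE := hZ (Q h) (Q (h + 1)) (max ‖aeval θ (Q h)‖ ‖aeval θ (Q (h + 1))‖) a1 b1 hna a2 b2
      (le_max_left _ _) (le_max_right _ _)
    rw [← hp, ← hq] at hE
    set T : ℝ := 2 ^ (κ + 2) with hT
    have hT1 : (1 : ℝ) ≤ T := one_le_pow₀ (by norm_num)
    have hδL : 0 ≤ δ * L := by positivity
    -- the two bounds for the exponent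
    have hqδ : q ≤ C * T * δ := by
      calc q ≤ C * δ' := b3
        _ ≤ C * (T * δ) := mul_le_mul_of_nonneg_left hδ2 hC0.le
        _ = C * T * δ := by ring
    have hzδ : mz (Q (h + 1)) ≤ 6 * C * T * (δ * L) := by
      calc mz (Q (h + 1)) ≤ 3 * C * (δ' * L') := b5
        _ ≤ 3 * C * ((T * δ) * (2 * L)) := by
            refine mul_le_mul_of_nonneg_left ?_ (by positivity)
            exact mul_le_mul hδ2 hLL2 (by linarith) (by positivity)
        _ = 6 * C * T * (δ * L) := by ring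
    have hδδL : δ ≤ δ * L := by nlinarith
    have hW1 : p * (q + mz (Q (h + 1))) + q * (p + mz (Q h)) ≤
        M * (δ * L * p + δ * mz (Q h)) := by
      have e1 : p * (q + mz (Q (h + 1))) ≤ p * (7 * C * T * (δ * L)) := by
        refine mul_le_mul_of_nonneg_left ?_ (by linarith)
        have : C * T * δ ≤ C * T * (δ * L) := mul_le_mul_of_nonneg_left hδδL (by positivity)
        linarith
      have e2 : q * (p + mz (Q h)) ≤ C * T * δ * (p + mz (Q h)) :=
        mul_le_mul_of_nonneg_right hqδ (by linarith)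
      have e3 : C * T * δ * p ≤ C * T * (δ * L) * p := by
        refine mul_le_mul_of_nonneg_right ?_ (by linarith)
        exact mul_le_mul_of_nonneg_left hδδL (by positivity)
      have e4 : 0 ≤ 7 * C * T * (δ * mz (Q h)) := by positivity
      have e5 : M * (δ * L * p + δ * mz (Q h)) = p * (7 * C * T * (δ * L)) +
          C * T * (δ * L) * p + C * T * δ * mz (Q h) + 7 * C * T * (δ * mz (Q h)) := by
        rw [hMd]
        ring
      have e6 : C * T * δ * (p + mz (Q h)) = C * T * δ * p + C * T * δ * mz (Q h) := by ring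
      linarith
    have hW2 : p * (q + mz (Q (h + 1))) + q * (p + mz (Q h)) ≤
        M * (δ' * L' * q + δ' * mz (Q (h + 1))) := by
      have hδ'L' : δ' ≤ δ' * L' := by nlinarith
      have hδ'0 : 0 < δ' := by linarith
      have e0 : p ≤ C * δ' := a3.trans (mul_le_mul_of_nonneg_left hδm hC0.le)
      have e0' : mz (Q h) ≤ 3 * C * (δ' * L') := by
        refine a5.trans (mul_le_mul_of_nonneg_left ?_ (by positivity))
        exact mul_le_mul hδm hLL (by linarith) (by linarith)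
      have e1 : q * (p + mz (Q h)) ≤ q * (4 * C * (δ' * L')) := by
        refine mul_le_mul_of_nonneg_left ?_ (by linarith)
        have : C * δ' ≤ C * (δ' * L') := mul_le_mul_of_nonneg_left hδ'L' hC0.le
        linarith
      have e2 : p * (q + mz (Q (h + 1))) ≤ C * δ' * (q + mz (Q (h + 1))) :=
        mul_le_mul_of_nonneg_right e0 (by linarith)
      have e3 : C * δ' * q ≤ C * (δ' * L') * q := by
        refine mul_le_mul_of_nonneg_right ?_ (by linarith)
        exact mul_le_mul_of_nonneg_left hδ'L' hC0.le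
      have e5 : 0 ≤ C * (δ' * L') * q := by positivity
      have e6 : 0 ≤ C * (δ' * mz (Q (h + 1))) := by positivity
      have e7 : p * (q + mz (Q (h + 1))) + q * (p + mz (Q h)) ≤
          8 * C * (δ' * L' * q + δ' * mz (Q (h + 1))) := by
        have i1 : q * (4 * C * (δ' * L')) = 4 * (C * (δ' * L') * q) := by ring
        have i2 : C * δ' * (q + mz (Q (h + 1))) = C * δ' * q + C * (δ' * mz (Q (h + 1))) := by
          ring
        have i3 : 8 * C * (δ' * L' * q + δ' * mz (Q (h + 1))) =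
            8 * (C * (δ' * L') * q) + 8 * (C * (δ' * mz (Q (h + 1)))) := by ring
        linarith
      refine e7.trans ?_
      have e8 : 0 ≤ δ' * L' * q + δ' * mz (Q (h + 1)) := by positivity
      refine mul_le_mul_of_nonneg_right ?_ e8
      rw [hMd]
      exact le_mul_of_one_le_right (by positivity) hT1
    have hfin : ∀ (W G : ℝ), 0 < W → 4 * C ^ 2 * (C1 * M) < G →
        p * (q + mz (Q (h + 1))) + q * (p + mz (Q h)) ≤ M * W →
        max ‖aeval θ (Q h)‖ ‖aeval θ (Q (h + 1))‖ ≤ Real.exp (-(G / (4 * C ^ 2) * W)) →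
        False := by
      intro W G hW hG h5 h6
      have h7 : (1 : ℝ) ≤ Real.exp (-(G / (4 * C ^ 2) * W)) * Real.exp (C1 * (M * W)) := by
        refine hE.trans (mul_le_mul h6 ?_ (Real.exp_pos _).le (Real.exp_pos _).le)
        exact Real.exp_le_exp.2 (mul_le_mul_of_nonneg_left h5 (by linarith))
      rw [← Real.exp_add] at h7
      have h8 : 0 ≤ -(G / (4 * C ^ 2) * W) + C1 * (M * W) := by
        by_contra hneg
        push Not at hneg
        have := Real.exp_lt_exp.2 hneg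
        rw [Real.exp_zero] at this
        linarith
      have h9 : C1 * M < G / (4 * C ^ 2) := by
        rw [lt_div_iff₀ (by positivity)]
        linarith
      have h10 : C1 * M * W < G / (4 * C ^ 2) * W := mul_lt_mul_of_pos_right h9 hW
      have h11 : C1 * (M * W) = C1 * M * W := by ring
      linarith
    rcases le_total ‖aeval θ (Q (h + 1))‖ ‖aeval θ (Q h)‖ with hle | hle
    · refine hfin (δ * L * p + δ * mz (Q h)) (g h) ?_ hgB hW1 ?_
      · have : 0 < δ * L * p := by positivity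
        have : 0 ≤ δ * mz (Q h) := by positivity
        linarith
      · rw [max_eq_left hle]
        exact a7
    · have hδ'0 : 0 < δ' := by linarith
      refine hfin (δ' * L' * q + δ' * mz (Q (h + 1))) (g (h + 1)) ?_ (by linarith) hW2 ?_
      · have : 0 < δ' * L' * q := by positivity
        have : 0 ≤ δ' * mz (Q (h + 1)) := by positivity
        linarith
      · rw [max_eq_right hle]
        exact b7
  have hconst : ∀ n : ℕ, ‖aeval θ (Q (H + n))‖ = ‖aeval θ (Q H)‖ := by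
    intro n
    induction n with
    | zero => rfl
    | succ n ih =>
      rw [← ih]
      exact (gem_assoc (hstep (H + n) (by omega)) θ).symm
  have hpos : 0 < ‖aeval θ (Q H)‖ := norm_pos_iff.2 (hQ H le_rfl).2.2.2.2.2.1
  -- choose a scale at which the value is too small
  obtain ⟨B1, hB1⟩ := exists_nat_gt (4 * C ^ 2 * (-Real.log ‖aeval θ (Q H)‖))
  obtain ⟨h2, hh2⟩ := hg.large B1
  set h : ℕ := H + h2 with hhd
  obtain ⟨-, a2, -, a4, -, -, a7⟩ := hQ h (by omega)
  rw [hhd, hconst h2, ← hhd] at a7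
  have hδ : (1 : ℝ) ≤ dl g κ h := by
    exact_mod_cast gem_dl_pos hg κ (by have := hHh3 h (by omega); omega)
  have hL := hL1 h (hHh3 h (by omega))
  have hgb : (B1 : ℝ) ≤ g h := by exact_mod_cast hh2 h (by omega)
  have hq1 : (1 : ℝ) ≤ (Q h).natDegree := by exact_mod_cast a2
  have hW : 1 ≤ (dl g κ h : ℝ) * Real.log h * (Q h).natDegree + dl g κ h * mz (Q h) := by
    have h3 : 1 ≤ (dl g κ h : ℝ) * Real.log h * (Q h).natDegree :=
      one_le_mul_of_one_le_of_one_le (one_le_mul_of_one_le_of_one_le hδ hL) hq1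
    have h4 : 0 ≤ (dl g κ h : ℝ) * mz (Q h) := by positivity
    linarith
  have h5 : Real.log ‖aeval θ (Q H)‖ ≤ -((g h : ℝ) / (4 * C ^ 2) *
      ((dl g κ h : ℝ) * Real.log h * (Q h).natDegree + dl g κ h * mz (Q h))) := by
    have := Real.log_le_log hpos a7
    rwa [Real.log_exp] at this
  have h6 : (g h : ℝ) / (4 * C ^ 2) ≤ (g h : ℝ) / (4 * C ^ 2) *
      ((dl g κ h : ℝ) * Real.log h * (Q h).natDegree + dl g κ h * mz (Q h)) :=
    le_mul_of_one_le_right (by positivity) hW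
  have h7 : -Real.log ‖aeval θ (Q H)‖ < (g h : ℝ) / (4 * C ^ 2) := by
    rw [lt_div_iff₀ (by positivity)]
    linarith
  linarith

end Pool.Agent.H14.PK
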