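import Pool.Agent.H36.TD1.GRS
import Pool.Agent.H65.PK.Targets

/-! (GRZ) two coprime integer polynomials are not both small at a point, with separate degree and
height (MP_58ae59_nt). -/

set_option autoImplicit false

open Polynomial

namespace Pool.Agent.H14.PK

open Pool.Agent.H65.PK Pool.Agent.H36.TD1

/-- the sum of the coefficients -/
theorem grz_len (hM : T_MZB) (P : ℤ[X]) (hP : P ≠ 0) (hp1 : 1 ≤ P.natDegree) :
    1 + ∑ k ∈ Finset.range (P.natDegree + 1), ‖(P.map (Int.castRingHom ℂ)).coeff k‖ ≤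
      Real.exp (3 * P.natDegree + mz P) := by
  have hp : (1 : ℝ) ≤ P.natDegree := by exact_mod_cast hp1
  have hmz := hM.2.1 P hP
  set p : ℝ := (P.natDegree : ℝ) with hpd
  have h1 : ∑ k ∈ Finset.range (P.natDegree + 1), ‖(P.map (Int.castRingHom ℂ)).coeff k‖ ≤
      (p + 1) * Real.exp (mz P + p) := by
    calc ∑ k ∈ Finset.range (P.natDegree + 1), ‖(P.map (Int.castRingHom ℂ)).coeff k‖
        ≤ ∑ _k ∈ Finset.range (P.natDegree + 1), Real.exp (mz P + p) := by
          refine Finset.sum_le_sum fun k _ => ?_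
          rw [coeff_map, eq_intCast, Complex.norm_intCast]
          exact hM.2.2.1 P k hP
      _ = (p + 1) * Real.exp (mz P + p) := by
          rw [Finset.sum_const, Finset.card_range, nsmul_eq_mul]; push_cast; ring
  have h2 : (1 : ℝ) ≤ Real.exp (mz P + p) := Real.one_le_exp (by linarith)
  have h3 : p + 2 ≤ Real.exp (p + 1) := by
    have := Real.add_one_le_exp (p + 1)
    linarith
  calc 1 + ∑ k ∈ Finset.range (P.natDegree + 1), ‖(P.map (Int.castRingHom ℂ)).coeff k‖
      ≤ Real.exp (mz P + p) + (p + 1) * Real.exp (mz P + p) := add_le_add h2 h1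
    _ = (p + 2) * Real.exp (mz P + p) := by ring
    _ ≤ Real.exp (p + 1) * Real.exp (mz P + p) := by gcongr
    _ = Real.exp (p + 1 + (mz P + p)) := by rw [← Real.exp_add]
    _ ≤ Real.exp (3 * p + mz P) := Real.exp_le_exp.2 (by linarith)

theorem pf_GRZ : T_MZB → T_GRZ := by
  intro hM θ
  set T : ℝ := max 1 ‖θ‖ with hT
  have hT1 : 1 ≤ T := le_max_left _ _
  have hTθ : ‖θ‖ ≤ T := le_max_right _ _
  have hlT : 0 ≤ Real.log T := Real.log_nonneg hT1
  refine ⟨3 + Real.log T, by linarith, ?_⟩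
  intro P Q ε hPi hQi hna hdP hdQ hPε hQε
  have hp1 : (1 : ℝ) ≤ P.natDegree := by exact_mod_cast hdP
  have hq1 : (1 : ℝ) ≤ Q.natDegree := by exact_mod_cast hdQ
  have hinj : Function.Injective (Int.castRingHom ℂ) := Int.cast_injective
  have hε0 : 0 ≤ ε := (norm_nonneg _).trans hPε
  have hzP := hM.2.1 P hPi.ne_zero
  have hzQ := hM.2.1 Q hQi.ne_zero
  -- the resultant
  have hres : resultant P Q ≠ 0 := by
    intro h0
    exact hna (hPi.associated_of_dvd hQi (dvd_of_res hPi (by omega) h0))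
  have hres1 : (1 : ℝ) ≤ ‖((resultant P Q : ℤ) : ℂ)‖ := by
    rw [Complex.norm_intCast]
    have h1 : (1 : ℤ) ≤ |resultant P Q| := Int.one_le_abs hres
    exact_mod_cast h1
  have hmap : ((resultant P Q : ℤ) : ℂ) = (sylvester (P.map (Int.castRingHom ℂ))
      (Q.map (Int.castRingHom ℂ)) P.natDegree Q.natDegree).det := by
    have h1 := resultant_map_map P Q P.natDegree Q.natDegree (Int.castRingHom ℂ)
    unfold resultant at h1 ⊢
    rw [h1]
    rfl
  have hevP : (P.map (Int.castRingHom ℂ)).eval θ = aeval θ P := by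
    rw [eval_map, aeval_def]; rfl
  have hevQ : (Q.map (Int.castRingHom ℂ)).eval θ = aeval θ Q := by
    rw [eval_map, aeval_def]; rfl
  have hb := syl_bound (P.map (Int.castRingHom ℂ)) (Q.map (Int.castRingHom ℂ)) P.natDegree
    Q.natDegree θ T ε _ _ (natDegree_map_le) (natDegree_map_le) (by omega) hT1 hTθ
    (by rw [hevP]; exact hPε) (by rw [hevQ]; exact hQε) le_rfl le_rfl
  rw [← hmap] at hb
  have lP := grz_len hM P hPi.ne_zero hdP
  have lQ := grz_len hM Q hQi.ne_zero hdQ
  set A : ℝ := 1 + ∑ k ∈ Finset.range (P.natDegree + 1),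
    ‖(P.map (Int.castRingHom ℂ)).coeff k‖ with hA
  set B : ℝ := 1 + ∑ k ∈ Finset.range (Q.natDegree + 1),
    ‖(Q.map (Int.castRingHom ℂ)).coeff k‖ with hB
  have hA0 : 0 ≤ A := by
    have : 0 ≤ ∑ k ∈ Finset.range (P.natDegree + 1),
      ‖(P.map (Int.castRingHom ℂ)).coeff k‖ := Finset.sum_nonneg fun k _ => norm_nonneg _
    linarith
  have hB0 : 0 ≤ B := by
    have : 0 ≤ ∑ k ∈ Finset.range (Q.natDegree + 1),
      ‖(Q.map (Int.castRingHom ℂ)).coeff k‖ := Finset.sum_nonneg fun k _ => norm_nonneg _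
    linarith
  set p : ℝ := (P.natDegree : ℝ) with hp
  set q : ℝ := (Q.natDegree : ℝ) with hq
  have e1 : B ^ P.natDegree ≤ Real.exp (p * (3 * q + mz Q)) := by
    calc B ^ P.natDegree ≤ Real.exp (3 * q + mz Q) ^ P.natDegree := pow_le_pow_left₀ hB0 lQ _
      _ = Real.exp (p * (3 * q + mz Q)) := by rw [← Real.exp_nat_mul]
  have e2 : A ^ Q.natDegree ≤ Real.exp (q * (3 * p + mz P)) := by
    calc A ^ Q.natDegree ≤ Real.exp (3 * p + mz P) ^ Q.natDegree := pow_le_pow_left₀ hA0 lP _
      _ = Real.exp (q * (3 * p + mz P)) := by rw [← Real.exp_nat_mul]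
  have e3 : T ^ (P.natDegree + Q.natDegree) ≤ Real.exp (2 * Real.log T * (p * q)) := by
    have h1 : T ^ (P.natDegree + Q.natDegree) =
        Real.exp (((P.natDegree + Q.natDegree : ℕ) : ℝ) * Real.log T) := by
      rw [Real.exp_nat_mul, Real.exp_log (by linarith)]
    rw [h1]
    apply Real.exp_le_exp.2
    have h2 : ((P.natDegree + Q.natDegree : ℕ) : ℝ) ≤ 2 * (p * q) := by
      push_cast
      nlinarith
    calc ((P.natDegree + Q.natDegree : ℕ) : ℝ) * Real.log T ≤ 2 * (p * q) * Real.log T :=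
          mul_le_mul_of_nonneg_right h2 hlT
      _ = 2 * Real.log T * (p * q) := by ring
  calc (1 : ℝ) ≤ ‖((resultant P Q : ℤ) : ℂ)‖ := hres1
    _ ≤ T ^ (P.natDegree + Q.natDegree) * ε * (B ^ P.natDegree * A ^ Q.natDegree) := hb
    _ ≤ Real.exp (2 * Real.log T * (p * q)) * ε *
        (Real.exp (p * (3 * q + mz Q)) * Real.exp (q * (3 * p + mz P))) := by
        gcongr
    _ = ε * Real.exp (2 * Real.log T * (p * q) + (p * (3 * q + mz Q) + q * (3 * p + mz P))) := by
        rw [Real.exp_add, Real.exp_add]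
        ring
    _ ≤ ε * Real.exp ((3 + Real.log T) * (p * (q + mz Q) + q * (p + mz P))) := by
        refine mul_le_mul_of_nonneg_left (Real.exp_le_exp.2 ?_) hε0
        have h1 : 0 ≤ p * mz Q := by positivity
        have h2 : 0 ≤ q * mz P := by positivity
        nlinarith [mul_nonneg hlT h1, mul_nonneg hlT h2]

end Pool.Agent.H14.PK
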