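import Pool.Agent.H97.PK.Targets3

/-!
LAR: layer cake in normalised radii.
-/

open MeasureTheory Set Metric Real
open scoped ENNReal

namespace Pool.Agent.H14.PK

open Pool.Agent.H97.PK

/-- the exponential as an integral -/
lemma lar_layer (Γ : ℝ) (hΓ : 0 < Γ) (t : ℝ) (ht : 0 ≤ t) :
    ENNReal.ofReal (exp (Γ * (1 - t ^ 2))) = ∫⁻ r in Ioi t, ENNReal.ofReal (rd Γ r) := by
  have hd : ∀ x ∈ Ici t, HasDerivAt (fun r : ℝ => -exp (Γ * (1 - r ^ 2))) (rd Γ x) x := by
    intro x _
    have h1 : HasDerivAt (fun r : ℝ => Γ * (1 - r ^ 2)) (Γ * (-(2 * x))) x := by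
      have h2 : HasDerivAt (fun r : ℝ => 1 - r ^ 2) (-(2 * x)) x := by
        have := (hasDerivAt_pow 2 x).const_sub 1
        simpa using this
      exact h2.const_mul Γ
    have h3 := h1.exp.neg
    refine h3.congr_deriv ?_
    unfold rd
    ring
  have hpos : ∀ x ∈ Ioi t, 0 ≤ rd Γ x := by
    intro x hx
    have hx0 : 0 < x := lt_of_le_of_lt ht hx
    unfold rd
    positivity
  have hlim : Filter.Tendsto (fun r : ℝ => -exp (Γ * (1 - r ^ 2))) Filter.atTop (nhds 0) := by
    have h1 : Filter.Tendsto (fun r : ℝ => Γ * (1 - r ^ 2)) Filter.atTop Filter.atBot := by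
      refine Filter.Tendsto.const_mul_atBot hΓ ?_
      have h2 : Filter.Tendsto (fun r : ℝ => r ^ 2) Filter.atTop Filter.atTop :=
        Filter.tendsto_pow_atTop two_ne_zero
      exact Filter.tendsto_atBot_add_const_left _ 1 (Filter.tendsto_neg_atTop_atBot.comp h2)
    have h3 := (Real.tendsto_exp_atBot.comp h1).neg
    simpa using h3
  have hint := integrableOn_Ioi_deriv_of_nonneg' hd hpos hlim
  have hval := integral_Ioi_of_hasDerivAt_of_nonneg' hd hpos hlim
  rw [← ofReal_integral_eq_lintegral_ofReal hint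
    ((ae_restrict_mem measurableSet_Ioi).mono fun x hx => hpos x hx), hval]
  congr 1
  ring

theorem pf_lar : T_LAR := by
  intro d hd C hC c ρ l hρ hl
  have hΓ : 0 < l * ρ ^ 2 := by positivity
  set Γ := l * ρ ^ 2 with hΓdef
  set K : ℝ → ℝ≥0∞ := fun s => ENNReal.ofReal (rd Γ s) with hK
  have hKm : Measurable K := by
    refine ENNReal.measurable_ofReal.comp ?_
    unfold rd
    fun_prop
  have hg : ∀ y : E d, gau l c ρ y = exp (Γ * (1 - (‖y - c‖ / ρ) ^ 2)) := by
    intro y
    unfold gau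
    congr 1
    rw [hΓdef]
    field_simp
  have hT : MeasurableSet {z : E d × ℝ | ‖z.1 - c‖ / ρ < z.2} :=
    measurableSet_lt (by fun_prop) (by fun_prop)
  have h1 : ∀ y : E d, ENNReal.ofReal (gau l c ρ y) = ∫⁻ s in Ioi (0 : ℝ),
      K s * {z : E d × ℝ | ‖z.1 - c‖ / ρ < z.2}.indicator 1 (y, s) := by
    intro y
    have ht : 0 ≤ ‖y - c‖ / ρ := by positivity
    rw [hg, lar_layer Γ hΓ _ ht]
    have h2 : ∀ s : ℝ, K s * {z : E d × ℝ | ‖z.1 - c‖ / ρ < z.2}.indicator 1 (y, s) =
        (Ioi (‖y - c‖ / ρ)).indicator K s := by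
      intro s
      by_cases hs : ‖y - c‖ / ρ < s
      · rw [indicator_of_mem (show s ∈ Ioi (‖y - c‖ / ρ) from hs), indicator_of_mem (show
          (y, s) ∈ {z : E d × ℝ | ‖z.1 - c‖ / ρ < z.2} from hs)]
        simp
      · rw [indicator_of_notMem (show s ∉ Ioi (‖y - c‖ / ρ) from hs), indicator_of_notMem (show
          (y, s) ∉ {z : E d × ℝ | ‖z.1 - c‖ / ρ < z.2} from hs), mul_zero]
    simp only [h2]
    rw [lintegral_indicator measurableSet_Ioi, Measure.restrict_restrict measurableSet_Ioi,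
      Ioi_inter_Ioi, max_eq_left ht]
  simp only [h1]
  rw [lintegral_lintegral_swap]
  · refine setLIntegral_congr_fun measurableSet_Ioi fun s hs => ?_
    show ∫⁻ y in C, K s * {z : E d × ℝ | ‖z.1 - c‖ / ρ < z.2}.indicator 1 (y, s) =
      K s * volume (C ∩ ball c (s * ρ))
    have h3 : ∀ y : E d, {z : E d × ℝ | ‖z.1 - c‖ / ρ < z.2}.indicator (1 : E d × ℝ → ℝ≥0∞)
        (y, s) = (ball c (s * ρ)).indicator 1 y := by
      intro y
      have h4 : y ∈ ball c (s * ρ) ↔ ‖y - c‖ / ρ < s := by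
        rw [mem_ball, dist_eq_norm, div_lt_iff₀ hρ]
      by_cases hy : ‖y - c‖ / ρ < s
      · rw [indicator_of_mem (h4.mpr hy), indicator_of_mem (show
          (y, s) ∈ {z : E d × ℝ | ‖z.1 - c‖ / ρ < z.2} from hy)]
        rfl
      · rw [indicator_of_notMem (fun h => hy (h4.mp h)), indicator_of_notMem (show
          (y, s) ∉ {z : E d × ℝ | ‖z.1 - c‖ / ρ < z.2} from hy)]
    simp only [h3]
    rw [lintegral_const_mul _ (measurable_one.indicator measurableSet_ball),
      lintegral_indicator_one measurableSet_ball, Measure.restrict_apply measurableSet_ball, inter_comm]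
  · refine Measurable.aemeasurable ?_
    exact (hKm.comp measurable_snd).mul (measurable_one.indicator hT)

end Pool.Agent.H14.PK
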